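import Pool.Agent.H92.SupersingularProof

/-!
# The supersingular congruence for `E₄ / (j - j(C))` holds
-/

open Pool.Agent.H92.Supersingular

namespace Pool.Agent.Results.MP_06548c_nt.SupersingularCongruence

/-- **Q1 holds.** For every elliptic curve `C/ℚ` with `j(C) ∉ {0, 1728}` and every supersingular
prime `p` of `C` with `v_p(j(C)) = 0 = v_p(j(C) - 1728)`, the `p`-th coefficient of
`F_C = E₄/(j - j(C))` is `p²` times a `p`-integral rational number. -/
theorem result (C : WeierstrassCurve ℚ) [C.IsElliptic] (hj0 : C.j ≠ 0) (hj1 : C.j ≠ 1728)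
    (p : ℕ) [Fact p.Prime] (hss : IsSupersingularPrime C p)
    (hv0 : padicValRat p C.j = 0) (hv1 : padicValRat p (C.j - 1728) = 0) :
    ∃ z : ℚ, ¬ p ∣ z.den ∧ (F C).coeff (p : ℤ) = (p : ℚ) ^ 2 * z :=
  congruence C hj0 hj1 p hss hv0 hv1

end Pool.Agent.Results.MP_06548c_nt.SupersingularCongruence
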